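import Pool.Agent.H.MP_97563e_nt.Defs

set_option autoImplicit false

namespace Pool.Agent.H.MP_97563e_nt
open Matrix

theorem mem_Z {n : ℕ} {x : Fin n → ℝ} : x ∈ Z n ↔ ∀ i, ∃ k : ℤ, x i = k := by
  simp [Z, AddSubgroup.mem_pi, AddSubgroup.mem_zmultiples_iff, eq_comm]

theorem mem_Z3 {x : E} : x ∈ Z 3 ↔ ∃ a b c : ℤ, x 0 = a ∧ x 1 = b ∧ x 2 = c := by
  rw [mem_Z, Fin.forall_fin_succ, Fin.forall_fin_two]
  exact ⟨fun ⟨⟨a, ha⟩, ⟨b, hb⟩, c, hc⟩ => ⟨a, b, c, ha, hb, hc⟩,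
    fun ⟨a, b, c, ha, hb, hc⟩ => ⟨⟨a, ha⟩, ⟨b, hb⟩, c, hc⟩⟩

def M (k : ℝ) : Matrix (Fin 3) (Fin 3) ℝ := !![5, 0, k; 0, 5, -k; 0, 0, 1]

theorem M0 (k : ℝ) (x : E) : (M k *ᵥ x) 0 = 5 * x 0 + k * x 2 := by
  simp [M, mulVec, dotProduct, Fin.sum_univ_three]
theorem M1 (k : ℝ) (x : E) : (M k *ᵥ x) 1 = 5 * x 1 - k * x 2 := by
  simp [M, mulVec, dotProduct, Fin.sum_univ_three]; ring
theorem M2 (k : ℝ) (x : E) : (M k *ᵥ x) 2 = x 2 := by
  simp [M, mulVec, dotProduct, Fin.sum_univ_three]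

def P (L : Matrix (Fin 3) (Fin 3) ℝ) : Set E := {x | (∀ i, 0 ≤ (L *ᵥ x) i) ∧ 5 ≤ ∑ i, (L *ᵥ x) i}

theorem cont (L : Matrix (Fin 3) (Fin 3) ℝ) (i : Fin 3) : Continuous fun x : E => (L *ᵥ x) i :=
  (continuous_apply i).comp (continuous_const.matrix_mulVec continuous_id)

theorem cvx (L : Matrix (Fin 3) (Fin 3) ℝ) (i : Fin 3) : Convex ℝ {x : E | 0 ≤ (L *ᵥ x) i} := by
  intro x hx y hy a b ha hb _
  have h1 : 0 ≤ (L *ᵥ x) i := hx
  have h2 : 0 ≤ (L *ᵥ y) i := hy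
  show 0 ≤ (L *ᵥ (a • x + b • y)) i
  rw [mulVec_add, mulVec_smul, mulVec_smul]
  exact add_nonneg (mul_nonneg ha h1) (mul_nonneg hb h2)

theorem P_cvx (L : Matrix (Fin 3) (Fin 3) ℝ) : Convex ℝ (P L) := by
  intro x hx y hy a b ha hb hab
  refine ⟨fun i => cvx L i (hx.1 i) (hy.1 i) ha hb hab, ?_⟩
  have h1 := hx.2
  have h2 := hy.2
  rw [mulVec_add, mulVec_smul, mulVec_smul]
  simp only [Pi.add_apply, Pi.smul_apply, smul_eq_mul, Finset.sum_add_distrib, ← Finset.mul_sum]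
  nlinarith

theorem P_closed (L : Matrix (Fin 3) (Fin 3) ℝ) : IsClosed (P L) := by
  refine IsClosed.inter (s₁ := {x : E | ∀ i, 0 ≤ (L *ᵥ x) i}) ?_
    (isClosed_le continuous_const (continuous_finset_sum _ fun i _ => cont L i))
  rw [Set.setOf_forall]
  exact isClosed_iInter fun i => isClosed_le continuous_const (cont L i)

theorem P_int {L : Matrix (Fin 3) (Fin 3) ℝ} {x : E} (h1 : ∀ i, 0 < (L *ᵥ x) i)
    (h2 : 5 < ∑ i, (L *ᵥ x) i) : x ∈ interior (P L) := by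
  refine mem_interior.2 ⟨{x | (∀ i, 0 < (L *ᵥ x) i) ∧ 5 < ∑ i, (L *ᵥ x) i},
    fun y hy => ⟨fun i => (hy.1 i).le, hy.2.le⟩, ?_, h1, h2⟩
  refine IsOpen.inter (s := {x : E | ∀ i, 0 < (L *ᵥ x) i}) ?_
    (isOpen_lt continuous_const (continuous_finset_sum _ fun i _ => cont L i))
  rw [Set.setOf_forall]
  exact isOpen_iInter_of_finite fun i => isOpen_lt continuous_const (cont L i)

theorem P_sub {L : Matrix (Fin 3) (Fin 3) ℝ} (V : Fin 3 → E) (hV : ∀ i, V i ∈ Z 3)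
    (hL : ∀ i, L *ᵥ V i = Pi.single i 5) (hx : ∀ x, x = ∑ i, ((L *ᵥ x) i / 5) • V i) :
    P L ⊆ hull L := by
  have h1 : ∀ i (n : ℕ), 0 < n → (n : ℝ) • V i ∈ hull L := fun i n hn => subset_convexHull ℝ _ ⟨by
      rw [Nat.cast_smul_eq_nsmul]; exact AddSubgroup.nsmul_mem _ (hV i) n, fun h => by
      have := congrFun (congrArg (L *ᵥ ·) h) i
      simp [mulVec_smul, hL] at this
      omega, fun j => by
      rw [mulVec_smul, hL]
      exact mul_nonneg (Nat.cast_nonneg n) (by by_cases h : j = i <;> simp [Pi.single_apply, h])⟩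
  have h2 : ∀ i (t : ℝ), 1 ≤ t → t • V i ∈ hull L := fun i t ht => by
    obtain ⟨n, hn⟩ := exists_nat_gt t
    have h3 : (1 : ℝ) < n := ht.trans_lt hn
    have h4 := (convex_convexHull ℝ _ : Convex ℝ (hull L)) (h1 i 1 one_pos)
      (h1 i n (by exact_mod_cast one_pos.trans h3)) (a := (n - t) / (n - 1)) (b := (t - 1) / (n - 1))
      (div_nonneg (by linarith) (by linarith)) (div_nonneg (by linarith) (by linarith))
      (by have : (n : ℝ) - 1 ≠ 0 := by linarith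
          field_simp; ring)
    rwa [smul_smul, smul_smul, ← add_smul, show (n - t) / (n - 1) * ((1 : ℕ) : ℝ) +
      (t - 1) / (n - 1) * n = t by
        have : (n : ℝ) - 1 ≠ 0 := by linarith
        push_cast; field_simp; ring] at h4
  intro x hx'
  have h5 := hx'.2
  have h6 : (0 : ℝ) < ∑ i, (L *ᵥ x) i := by linarith
  have h7 := (convex_convexHull ℝ _ : Convex ℝ (hull L)).sum_mem (t := Finset.univ)
    (w := fun i => (L *ᵥ x) i / ∑ i, (L *ᵥ x) i) (z := fun i => ((∑ i, (L *ᵥ x) i) / 5) • V i)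
    (fun i _ => div_nonneg (hx'.1 i) h6.le) (by rw [← Finset.sum_div, div_self h6.ne'])
    (fun i _ => h2 i _ (by linarith))
  rw [hx x]
  refine Eq.subst (motive := fun y => y ∈ hull L) (Finset.sum_congr rfl fun i _ => ?_) h7
  rw [smul_smul]
  congr 1
  field_simp

def VV (k : ℝ) (ε : E) : Fin 3 → E := ![![ε 0, 0, 0], ![0, ε 1, 0], ![-k * ε 2, k * ε 2, 5 * ε 2]]

theorem P_sub' (k : ℤ) {ε : E} (hε : ∀ i, ε i = 1 ∨ ε i = -1) :
    P (diagonal ε * M k) ⊆ hull (diagonal ε * M k) := by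
  have h1 : ∀ i, ∃ n : ℤ, ε i = n := fun i => (hε i).elim (fun h => ⟨1, by simp [h]⟩)
    fun h => ⟨-1, by simp [h]⟩
  have h2 : ∀ i, ε i * ε i = 1 := fun i => (hε i).elim (fun h => by simp [h]) fun h => by simp [h]
  have a0 := h2 0
  have a1 := h2 1
  have a2 := h2 2
  refine P_sub (VV k ε) (fun i => mem_Z3.2 ?_) (fun i => ?_) fun x => ?_
  · obtain ⟨a, ha⟩ := h1 0
    obtain ⟨b, hb⟩ := h1 1
    obtain ⟨c, hc⟩ := h1 2
    fin_cases i
    · exact ⟨a, 0, 0, by simp [VV, ha]⟩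
    · exact ⟨0, b, 0, by simp [VV, hb]⟩
    · exact ⟨-k * c, k * c, 5 * c, by simp [VV, hc]⟩
  · funext j
    rw [← mulVec_mulVec, mulVec_diagonal]
    fin_cases i <;> fin_cases j <;> simp [VV, M0, M1, M2] <;> first | nlinarith | (right; ring)
  · funext j
    simp only [← mulVec_mulVec, mulVec_diagonal, Fin.sum_univ_three, M0, M1, M2]
    fin_cases j <;> simp [VV]
    · linear_combination (-x 0 - k * x 2 / 5) * a0 + (k * x 2 / 5) * a2
    · linear_combination (-x 1 + k * x 2 / 5) * a1 - (k * x 2 / 5) * a2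
    · linear_combination (-x 2) * a2

theorem hull_sub (L : Matrix (Fin 3) (Fin 3) ℝ) (i : Fin 3) :
    closure (hull L) ⊆ {x | 0 ≤ (L *ᵥ x) i} :=
  closure_minimal (convexHull_min (fun _ hx => hx.2.2 i) (cvx L i))
    (isClosed_le continuous_const (cont L i))

theorem hull_eq {k : ℤ} (hk : k = 1 ∨ k = 2) : hull (M k) = P (M k) := by
  refine subset_antisymm (convexHull_min (fun x hx => ⟨hx.2.2, ?_⟩) (P_cvx _)) ?_
  · obtain ⟨a, b, c, ha, hb, hc⟩ := mem_Z3.1 hx.1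
    have h0 := hx.2.2 0
    have h1 := hx.2.2 1
    have h2 := hx.2.2 2
    have h3 : ¬ (a = 0 ∧ b = 0 ∧ c = 0) := fun h => hx.2.1 (by
      funext j
      fin_cases j <;> simp [ha, hb, hc, h.1, h.2.1, h.2.2])
    rw [Fin.sum_univ_three]
    simp only [M0, M1, M2, ha, hb, hc] at h0 h1 h2 ⊢
    norm_cast at h0 h1 h2 ⊢
    rcases hk with rfl | rfl
    · omega
    · rcases lt_trichotomy (a + b) 0 with h | h | h
      · omega
      · have : 5 * a + 2 * c = 0 := by omega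
        omega
      · omega
  · have := P_sub' k (ε := fun _ => 1) fun _ => Or.inl rfl
    rwa [diagonal_one, Matrix.one_mul] at this

theorem mem_CF {k : ℤ} {x : E} (h1 : ∃ i, (M k *ᵥ x) i = 0) (h2 : 5 ≤ ∑ i, |(M k *ᵥ x) i|) :
    x ∈ CF (M k) := by
  let ε : E := fun i => if 0 ≤ (M k *ᵥ x) i then 1 else -1
  have hε : ∀ i, ε i = 1 ∨ ε i = -1 := fun i => by
    by_cases h : 0 ≤ (M k *ᵥ x) i <;> simp [ε, h]
  have h3 : ∀ i, ((diagonal ε * M k) *ᵥ x) i = |(M k *ᵥ x) i| := fun i => by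
    rw [← mulVec_mulVec, mulVec_diagonal]
    by_cases h : 0 ≤ (M k *ᵥ x) i
    · simp [ε, h, abs_of_nonneg h]
    · simp [ε, h, abs_of_neg (not_le.1 h)]
  refine Set.mem_biUnion (x := ε) hε ⟨subset_closure (P_sub' k hε
    ⟨fun i => h3 i ▸ abs_nonneg _, by simpa only [h3] using h2⟩), fun h => ?_⟩
  obtain ⟨i, hi⟩ := h1
  have h4 : IsLocalMin (fun y : E => ((diagonal ε * M k) *ᵥ y) i) x := by
    filter_upwards [mem_interior_iff_mem_nhds.1 h] with y hy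
    rw [h3, hi, abs_zero]
    exact hull_sub _ i (subset_closure hy)
  let l : E →L[ℝ] ℝ := ⟨(LinearMap.proj i).comp (Matrix.mulVecLin (diagonal ε * M k)), cont _ i⟩
  have h5 : l = 0 := h4.hasFDerivAt_eq_zero l.hasFDerivAt
  have h6 : ((diagonal ε * M k) *ᵥ Pi.single i 1) i = 0 := DFunLike.congr_fun h5 (Pi.single i 1)
  rw [← mulVec_mulVec, mulVec_diagonal] at h6
  have h7 : ε i ≠ 0 := by rcases hε i with h | h <;> simp [h]
  have h8 := (mul_eq_zero.1 h6).resolve_left h7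
  fin_cases i <;> simp [M0, M1, M2] at h8

theorem of_CF {k : ℤ} {x : E} (h : x ∈ CF (M k)) :
    (∃ i, (M k *ᵥ x) i = 0) ∨ ∑ i, |(M k *ᵥ x) i| ≤ 5 := by
  obtain ⟨ε, hε, h1⟩ := Set.mem_iUnion₂.1 h
  by_contra h2
  push Not at h2
  have h3 : ∀ i, ((diagonal ε * M k) *ᵥ x) i = |(M k *ᵥ x) i| := fun i => by
    have h4 : 0 ≤ ((diagonal ε * M k) *ᵥ x) i := hull_sub _ i h1.1
    rw [← abs_of_nonneg h4, ← mulVec_mulVec, mulVec_diagonal, abs_mul]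
    rcases hε i with h | h <;> simp [h]
  exact h1.2 (interior_mono (P_sub' k hε) (P_int (fun i => h3 i ▸ abs_pos.2 (h2.1 i))
    (by simpa only [h3] using h2.2)))

theorem pair {α β : E} (h : ∀ t : ℝ, ∃ j, α j + t * β j = 0) : ∃ j, α j = 0 ∧ β j = 0 := by
  by_contra h1
  refine Set.infinite_univ (α := ℝ) ((Set.finite_iUnion (f := fun j => {t : ℝ | α j + t * β j = 0})
    fun j => Set.Subsingleton.finite fun s hs t ht => ?_).subset fun t _ => Set.mem_iUnion.2 (h t))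
  have h2 : α j + s * β j = 0 := hs
  have h3 : α j + t * β j = 0 := ht
  by_cases h4 : β j = 0
  · exact absurd ⟨j, by simpa [h4] using h2, h4⟩ h1
  · exact mul_right_cancel₀ h4 (by linarith)

theorem mono {a0 a1 a2 b0 b1 b2 c0 c1 c2 D Q : ℝ}
    (h1 : (a0 = 0 ∧ b0 = 0) ∨ (a1 = 0 ∧ b1 = 0) ∨ (a2 = 0 ∧ b2 = 0))
    (h2 : (a0 = 0 ∧ c0 = 0) ∨ (a1 = 0 ∧ c1 = 0) ∨ (a2 = 0 ∧ c2 = 0))
    (h3 : (b0 = 0 ∧ c0 = 0) ∨ (b1 = 0 ∧ c1 = 0) ∨ (b2 = 0 ∧ c2 = 0))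
    (hD : a0 * b1 * c2 - a0 * c1 * b2 - b0 * a1 * c2 + b0 * c1 * a2 + c0 * a1 * b2 - c0 * b1 * a2 = D)
    (hQ : (a0 - b0 + c0) * (a1 - b1 + c1) * (a2 - b2 + c2) = Q) : D = 0 ∨ Q = D ∨ Q = -D := by
  rcases h1 with ⟨h, h'⟩ | ⟨h, h'⟩ | ⟨h, h'⟩ <;> rcases h2 with ⟨k, k'⟩ | ⟨k, k'⟩ | ⟨k, k'⟩ <;>
    rcases h3 with ⟨l, l'⟩ | ⟨l, l'⟩ | ⟨l, l'⟩ <;> subst_vars <;>
    first | (left; ring1) | (right; left; ring1) | (right; right; ring1)

theorem not_equiv : ¬ Equivalent (M 1) (M 2) := by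
  rintro ⟨g, hg⟩
  have K : ∀ x : E, (∃ i, (M 1 *ᵥ x) i = 0) →
      ∃ j, (M 2 *ᵥ (g.1.map (Int.cast : ℤ → ℝ) *ᵥ x)) j = 0 := by
    intro x ⟨i, hi⟩
    by_contra h
    push Not at h
    have pos : ∀ y : E, y ≠ 0 → 0 < ∑ i, |y i| := fun y hy => by
      obtain ⟨j, hj⟩ := Function.ne_iff.1 hy
      exact Finset.sum_pos' (fun _ _ => abs_nonneg _) ⟨j, Finset.mem_univ _, abs_pos.2 hj⟩
    have h1 := pos _ (Function.ne_iff.2 ⟨0, h 0⟩)
    have h2 := pos (M 1 *ᵥ x) fun e => by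
      have e2 := congrFun e 2
      have e1 := congrFun e 1
      have e0 := congrFun e 0
      simp only [M0, M1, M2, Pi.zero_apply] at e0 e1 e2
      have : x = 0 := by
        funext j
        fin_cases j <;> simp <;> linarith
      exact h 0 (by simp [this])
    obtain ⟨t, ht⟩ := exists_gt (max (5 / ∑ i, |(M 1 *ᵥ x) i|)
      (5 / ∑ i, |(M 2 *ᵥ (g.1.map (Int.cast : ℤ → ℝ) *ᵥ x)) i|))
    have t1 := (div_lt_iff₀ h2).1 ((le_max_left _ _).trans_lt ht)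
    have t2 := (div_lt_iff₀ h1).1 ((le_max_right _ _).trans_lt ht)
    have t0 : 0 < t := by nlinarith
    have h3 : t • x ∈ CF (M (1 : ℤ)) := mem_CF ⟨i, by simp [mulVec_smul, hi]⟩ (by
      simpa [mulVec_smul, abs_mul, abs_of_pos t0, ← Finset.mul_sum] using t1.le)
    have h4 : g.1.map (Int.cast : ℤ → ℝ) *ᵥ (t • x) ∈ CF (M (2 : ℤ)) := by
      rw [Int.cast_ofNat, ← hg]
      exact ⟨_, by simpa using h3, rfl⟩
    rcases of_CF h4 with ⟨j, hj⟩ | h5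
    · simp only [mulVec_smul, Pi.smul_apply, smul_eq_mul, Int.cast_ofNat] at hj
      exact h j ((mul_eq_zero.1 hj).resolve_left t0.ne')
    · simp only [mulVec_smul, Pi.smul_apply, smul_eq_mul, Int.cast_ofNat, abs_mul, abs_of_pos t0,
        ← Finset.mul_sum] at h5
      linarith
  have K2 : ∀ x y : E, (∃ i, (M 1 *ᵥ x) i = 0 ∧ (M 1 *ᵥ y) i = 0) →
      ∃ j, (M 2 *ᵥ (g.1.map (Int.cast : ℤ → ℝ) *ᵥ x)) j = 0 ∧
        (M 2 *ᵥ (g.1.map (Int.cast : ℤ → ℝ) *ᵥ y)) j = 0 := by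
    intro x y ⟨i, h1, h2⟩
    refine pair fun t => ?_
    simpa [mulVec_add, mulVec_smul] using K (x + t • y) ⟨i, by simp [mulVec_add, mulVec_smul, h1, h2]⟩
  have h1 := K2 ![1, 0, 0] ![0, 1, 0] ⟨2, by simp [M2]⟩
  have h2 := K2 ![1, 0, 0] ![-1, 1, 5] ⟨1, by simp [M1]⟩
  have h3 := K2 ![0, 1, 0] ![-1, 1, 5] ⟨0, by simp [M0]⟩
  rw [Fin.exists_fin_succ, Fin.exists_fin_two] at h1 h2 h3
  have hd : IsUnit g.1.det := (Matrix.isUnit_iff_isUnit_det _).1 g.isUnit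
  have h4 := mono (D := 125 * (g.1.det : ℤ)) (Q := 125 * ((5 * g.1 0 2 + 2 * g.1 2 2) *
    (5 * g.1 1 2 - 2 * g.1 2 2) * g.1 2 2 : ℤ)) h1 h2 h3 (by
      simp only [Fin.succ_zero_eq_one, Fin.succ_one_eq_two, M0, M1, M2]
      simp [mulVec, dotProduct, Fin.sum_univ_three, det_fin_three]
      ring) (by
      simp only [Fin.succ_zero_eq_one, Fin.succ_one_eq_two, M0, M1, M2]
      simp [mulVec, dotProduct, Fin.sum_univ_three]
      ring)
  norm_cast at h4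
  have h5 : IsUnit ((5 * g.1 0 2 + 2 * g.1 2 2) * (5 * g.1 1 2 - 2 * g.1 2 2) * g.1 2 2) := by
    rcases h4 with h | h | h
    · exact absurd (by omega) hd.ne_zero
    · rw [mul_left_cancel₀ (by norm_num) h]; exact hd
    · rw [← mul_neg] at h
      rw [mul_left_cancel₀ (by norm_num) h]; exact hd.neg
  have h6 := Int.isUnit_iff.1 (isUnit_of_mul_isUnit_right h5)
  have h7 := Int.isUnit_iff.1 (isUnit_of_mul_isUnit_left (isUnit_of_mul_isUnit_left h5))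
  omega

end Pool.Agent.H.MP_97563e_nt
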