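import Pool.Agent.H.MP_97563e_nt.A

set_option autoImplicit false

namespace Pool.Agent.H.MP_97563e_nt
open Matrix

noncomputable def φl : E ≃ₗ[ℝ] E where
  toFun x := ![x 0 - x 2 / 5, x 1 + x 2 / 5, x 2]
  invFun x := ![x 0 + x 2 / 5, x 1 - x 2 / 5, x 2]
  map_add' x y := by funext j; fin_cases j <;> simp <;> ring
  map_smul' c x := by funext j; fin_cases j <;> simp <;> ring
  left_inv x := by funext j; fin_cases j <;> simp
  right_inv x := by funext j; fin_cases j <;> simp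

noncomputable def φ : E ≃L[ℝ] E := φl.toContinuousLinearEquiv

theorem φ0 (x : E) : φ x 0 = x 0 - x 2 / 5 := rfl
theorem φ1 (x : E) : φ x 1 = x 1 + x 2 / 5 := rfl
theorem φ2 (x : E) : φ x 2 = x 2 := rfl

theorem Mφ (x : E) : M 2 *ᵥ φ x = M 1 *ᵥ x := by
  funext j
  fin_cases j <;> simp [M0, M1, M2, φ0, φ1, φ2] <;> ring

theorem h1 : hull (M 1) = P (M 1) := by simpa using hull_eq (k := 1) (Or.inl rfl)
theorem h2 : hull (M 2) = P (M 2) := by simpa using hull_eq (k := 2) (Or.inr rfl)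

theorem φP : φ '' P (M 1) = P (M 2) := by
  ext y
  obtain ⟨x, rfl⟩ := φ.surjective y
  rw [φ.injective.mem_set_image]
  simp only [P, Set.mem_setOf_eq, Mφ]

theorem φsail : φ '' sail (M 1) = sail (M 2) := by
  rw [sail, sail, h1, h2, ← φP]
  exact φ.toHomeomorph.image_frontier _

theorem exp_map (f : E ≃L[ℝ] E) {A B : Set E} (h : IsExposed ℝ A B) :
    IsExposed ℝ (f '' A) (f '' B) := by
  intro hB
  obtain ⟨l, rfl⟩ := h hB.of_image
  refine ⟨l.comp (f.symm : E →L[ℝ] E), ?_⟩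
  ext y
  obtain ⟨x, rfl⟩ := f.surjective y
  simp [f.injective.mem_set_image]

theorem vs (F : Set E) : vectorSpan ℝ (φ '' F) = (vectorSpan ℝ F).map (φl : E →ₗ[ℝ] E) :=
  (AffineMap.vectorSpan_image_eq_submodule_map (φl : E →ₗ[ℝ] E).toAffineMap).symm

theorem as (F : Set E) : (affineSpan ℝ (φ '' F) : Set E) = φ '' affineSpan ℝ F :=
  congrArg SetLike.coe (AffineSubspace.map_span (φl : E →ₗ[ℝ] E).toAffineMap F).symm

theorem face_iff (d : ℕ) (F : Set E) : Face (M 1) d F ↔ Face (M 2) d (φ '' F) := by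
  rw [Face, Face, h1, h2, (P_closed _).closure_eq, (P_closed _).closure_eq, vs,
    LinearEquiv.finrank_map_eq, Set.image_nonempty, ← φP]
  refine and_congr_left fun _ => ⟨exp_map φ, fun h => ?_⟩
  simpa [Set.image_image] using exp_map φ.symm h

def mm : Fin 4 → Fin 3 → ℤ := ![![5, 0, 1], ![0, 5, -1], ![0, 0, 1], ![5, 5, 1]]
def mm' : Fin 4 → Fin 3 → ℤ := ![![5, 0, 2], ![0, 5, -2], ![0, 0, 1], ![5, 5, 1]]
def cc : Fin 4 → ℕ := ![0, 0, 0, 5]
def fm (m : Fin 3 → ℤ) (x : E) : ℝ := ∑ i, (m i : ℝ) * x i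

theorem fm_φ (j : Fin 4) (x : E) : fm (mm' j) (φ x) = fm (mm j) x := by
  fin_cases j <;> simp [fm, mm, mm', Fin.sum_univ_three, φ0, φ1, φ2] <;> ring

theorem plane {d : ℕ} {F : Set E} (h : Face (M 1) d F) (hd : d ≠ 3) :
    ∃ j, ∀ x ∈ F, fm (mm j) x = cc j := by
  obtain ⟨h3, h4, h5⟩ := h
  rw [h1, (P_closed _).closure_eq] at h3
  by_contra h6
  push Not at h6
  choose p hp h7 using h6
  have h8 := h3.convex (P_cvx _)
  have h9 := h8.sum_mem (t := Finset.univ) (w := fun _ : Fin 4 => (1 / 4 : ℝ)) (z := p)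
    (fun _ _ => by norm_num) (by simp) fun j _ => hp j
  have ge : ∀ i j, (cc j : ℝ) ≤ fm (mm j) (p i) := fun i j => by
    have a := h3.subset (hp i)
    have a0 := a.1 0
    have a1 := a.1 1
    have a2 := a.1 2
    have a3 := a.2
    simp only [Fin.sum_univ_three, M0, M1, M2] at a0 a1 a2 a3
    fin_cases j <;> simp [fm, mm, cc, Fin.sum_univ_three] <;> linarith
  have gt : ∀ j, (cc j : ℝ) < fm (mm j) (∑ i, (1 / 4 : ℝ) • p i) := fun j => by
    have e : fm (mm j) (∑ i, (1 / 4 : ℝ) • p i) = ∑ i, (1 / 4 : ℝ) * fm (mm j) (p i) := by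
      simp only [fm, Fin.sum_univ_three, Fin.sum_univ_four, Pi.add_apply, Pi.smul_apply,
        smul_eq_mul]
      ring
    have e' : (cc j : ℝ) = ∑ _i : Fin 4, (1 / 4 : ℝ) * cc j := by simp
    rw [e, e']
    exact Finset.sum_lt_sum (fun i _ => by have := ge i j; linarith)
      ⟨j, Finset.mem_univ _, by have := (ge j j).lt_of_ne (h7 j).symm; linarith⟩
  generalize ∑ i, (1 / 4 : ℝ) • p i = q at h9 gt
  have hq : q ∈ interior (P (M 1)) := by
    have a0 := gt 0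
    have a1 := gt 1
    have a2 := gt 2
    have a3 := gt 3
    simp [fm, mm, cc, Fin.sum_univ_three] at a0 a1 a2 a3
    refine P_int (fun i => ?_) ?_
    · fin_cases i <;> simp [M0, M1, M2] <;> linarith
    · simp only [Fin.sum_univ_three, M0, M1, M2]
      linarith
  obtain ⟨l, rfl⟩ := h3 h4
  have hl : l = 0 := IsLocalMax.hasFDerivAt_eq_zero (f := l) (a := q) (by
    filter_upwards [mem_interior_iff_mem_nhds.1 hq] with y hy
    exact h9.2 y hy) l.hasFDerivAt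
  subst hl
  have e : {x ∈ P (M 1) | ∀ y ∈ P (M 1), (0 : StrongDual ℝ E) y ≤ (0 : StrongDual ℝ E) x} =
      P (M 1) := by simp
  rw [e, ← direction_affineSpan, ((P_cvx _).interior_nonempty_iff_affineSpan_eq_top).1 ⟨q, hq⟩,
    AffineSubspace.direction_top, finrank_top] at h5
  simp at h5
  exact hd h5.symm

theorem latt {j : Fin 4} {x : E} {n : ℤ} (h : fm (mm j) x = 5 * n) : φ x ∈ Z 3 ↔ x ∈ Z 3 := by
  rw [mem_Z3, mem_Z3, φ0, φ1, φ2]
  constructor
  · rintro ⟨a, b, c, ha, hb, hc⟩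
    have e0 : x 0 = a + c / 5 := by linarith
    have e1 : x 1 = b - c / 5 := by linarith
    have : ∃ k : ℤ, c = 5 * k := by
      refine ⟨c / 5, ?_⟩
      fin_cases j <;> simp [fm, mm, Fin.sum_univ_three, e0, e1, hc] at h
      · have : 5 * a + 2 * c = 5 * n := by exact_mod_cast (by linarith : (5 * a + 2 * c : ℝ) = 5 * n)
        omega
      · have : 5 * b - 2 * c = 5 * n := by exact_mod_cast (by linarith : (5 * b - 2 * c : ℝ) = 5 * n)
        omega
      · have : c = 5 * n := by exact_mod_cast h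
        omega
      · have : 5 * a + 5 * b + c = 5 * n := by
          exact_mod_cast (by linarith : (5 * a + 5 * b + c : ℝ) = 5 * n)
        omega
    obtain ⟨k, rfl⟩ := this
    exact ⟨a + k, b - k, 5 * k, by rw [e0]; push_cast; ring, by rw [e1]; push_cast; ring, hc⟩
  · rintro ⟨a, b, c, ha, hb, hc⟩
    have : ∃ k : ℤ, c = 5 * k := by
      refine ⟨c / 5, ?_⟩
      fin_cases j <;> simp [fm, mm, Fin.sum_univ_three, ha, hb, hc] at h
      · have : 5 * a + c = 5 * n := by exact_mod_cast (by linarith : (5 * a + c : ℝ) = 5 * n)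
        omega
      · have : 5 * b - c = 5 * n := by exact_mod_cast (by linarith : (5 * b - c : ℝ) = 5 * n)
        omega
      · have : c = 5 * n := by exact_mod_cast h
        omega
      · have : 5 * a + 5 * b + c = 5 * n := by
          exact_mod_cast (by linarith : (5 * a + 5 * b + c : ℝ) = 5 * n)
        omega
    obtain ⟨k, rfl⟩ := this
    exact ⟨a - k, b + k, 5 * k, by rw [ha, hc]; push_cast; ring, by rw [hb, hc]; push_cast; ring, hc⟩

theorem cc5 (j : Fin 4) : ∃ n : ℤ, (cc j : ℝ) = 5 * n := by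
  fin_cases j
  exacts [⟨0, by simp [cc]⟩, ⟨0, by simp [cc]⟩, ⟨0, by simp [cc]⟩, ⟨1, by simp [cc]⟩]

theorem img {S : Set E} {j : Fin 4} (h : ∀ x ∈ S, fm (mm j) x = cc j) :
    φ '' (S ∩ Z 3) = φ '' S ∩ Z 3 := by
  obtain ⟨n, hn⟩ := cc5 j
  ext y
  obtain ⟨x, rfl⟩ := φ.surjective y
  rw [φ.injective.mem_set_image, Set.mem_inter_iff, Set.mem_inter_iff, φ.injective.mem_set_image]
  exact and_congr_right fun hx => (latt ((h x hx).trans hn)).symm

theorem len_eq {e : Set E} (h : Face (M 1) 1 e) : len e = len (φ '' e) := by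
  obtain ⟨j, hj⟩ := plane h (by norm_num)
  rw [len, len, ← img hj, φ.injective.encard_image]

def fl (m : Fin 3 → ℤ) : E →ₗ[ℝ] ℝ where
  toFun := fm m
  map_add' x y := by simp [fm, mul_add, Finset.sum_add_distrib]
  map_smul' c x := by simp [fm, Finset.mul_sum, mul_left_comm]

theorem vs_le {S : Set E} {j : Fin 4} (h : ∀ x ∈ S, fm (mm j) x = cc j) :
    vectorSpan ℝ S ≤ LinearMap.ker (fl (mm j)) := by
  refine Submodule.span_le.2 ?_
  rintro _ ⟨x, hx, y, hy, rfl⟩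
  show fl (mm j) (x - y) = 0
  rw [map_sub]
  exact sub_eq_zero.2 ((h x hx).trans (h y hy).symm)

theorem lat_map {S : Set E} {j : Fin 4} (h : ∀ x ∈ S, fm (mm j) x = cc j) :
    lat (φ '' S) = (lat S).map (φl : E →ₗ[ℝ] E).toAddMonoidHom := by
  ext y
  obtain ⟨x, rfl⟩ := φ.surjective y
  have e := AddSubgroup.mem_map_iff_mem (f := (φl : E →ₗ[ℝ] E).toAddMonoidHom) φl.injective
    (K := lat S) (x := x)
  refine Iff.trans ?_ e.symm
  rw [lat, lat, vs, AddSubgroup.mem_inf, AddSubgroup.mem_inf]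
  have e2 : φ x ∈ ((vectorSpan ℝ S).map (φl : E →ₗ[ℝ] E)).toAddSubgroup ↔
      x ∈ (vectorSpan ℝ S).toAddSubgroup :=
    ⟨fun ⟨z, hz, e⟩ => φl.injective e ▸ hz, fun hx => ⟨x, hx, rfl⟩⟩
  rw [e2]
  exact and_congr_right fun hx => latt (j := j) (n := 0) ((vs_le h hx).trans (by simp))

theorem ang_eq {F e e' : Set E} (h : Face (M 1) 2 F) (h1 : e ⊆ F) (h2 : e' ⊆ F) :
    ang F e e' = ang (φ '' F) (φ '' e) (φ '' e') := by
  obtain ⟨j, hj⟩ := plane h (by norm_num)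
  rw [ang, ang, lat_map hj, lat_map fun x hx => hj x (h1 hx), lat_map fun x hx => hj x (h2 hx),
    ← AddSubgroup.map_sup, AddSubgroup.relIndex_map_map_of_injective _ _ φl.injective]

theorem span_eq {F : Set E} (h : Face (M 1) 2 F) :
    ∃ j, (affineSpan ℝ F : Set E) = {x | fm (mm j) x = cc j} := by
  obtain ⟨j, hj⟩ := plane h (by norm_num)
  obtain ⟨p, hp⟩ := h.2.1
  have h0 : fl (mm j) ≠ 0 := fun e => by
    have := DFunLike.congr_fun e ![0, 0, 1]
    fin_cases j <;> simp [fl, fm, mm, Fin.sum_univ_three] at this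
  have h1 : vectorSpan ℝ F = LinearMap.ker (fl (mm j)) :=
    Submodule.eq_of_le_of_finrank_eq (vs_le hj) (by
      have := Module.Dual.finrank_ker_add_one_of_ne_zero h0
      rw [h.2.2]
      rw [Module.finrank_fin_fun] at this
      exact (Nat.succ_injective this).symm)
  refine ⟨j, Set.ext fun x => ?_⟩
  rw [SetLike.mem_coe, ← AffineSubspace.vsub_right_mem_direction_iff_mem (subset_affineSpan ℝ F hp),
    direction_affineSpan, h1, LinearMap.mem_ker, vsub_eq_sub, map_sub, sub_eq_zero, Set.mem_setOf_eq,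
    ← hj p hp]
  rfl

theorem dist_eq {F : Set E} (h : Face (M 1) 2 F) : ∃ c, HasDist F c ∧ HasDist (φ '' F) c := by
  obtain ⟨j, hj⟩ := span_eq h
  refine ⟨cc j, ⟨mm j, ⟨![![0, 0, 1], ![0, 0, -1], ![0, 0, 1], ![0, 0, 1]] j, by clear hj; revert j; decide⟩, hj⟩,
    mm' j, ⟨![![1, 0, -2], ![0, 1, 2], ![0, 0, 1], ![0, 0, 1]] j, by clear hj; revert j; decide⟩, ?_⟩
  rw [as, hj]
  ext y
  obtain ⟨x, rfl⟩ := φ.surjective y
  rw [φ.injective.mem_set_image]
  exact (fm_φ j x ▸ Iff.rfl : fm (mm j) x = cc j ↔ fm (mm' j) (φ x) = cc j)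

def NN : Fin 4 → Matrix (Fin 3) (Fin 2) ℝ :=
  ![!![0, -1; 1, 0; 0, 5], !![1, 0; 0, 1; 0, 5], !![1, 0; 0, 1; 0, 0], !![-1, -1; 1, 0; 0, 5]]
def oo : Fin 4 → E := ![0, 0, 0, ![1, 0, 0]]

noncomputable def ψ (j : Fin 4) : (Fin 2 → ℝ) →ᵃ[ℝ] E :=
  (NN j).mulVecLin.toAffineMap + AffineMap.const ℝ _ (oo j)

theorem ψ_eq (j : Fin 4) (s : Fin 2 → ℝ) : ψ j s = ![![-s 1, s 0, 5 * s 1], ![s 0, s 1, 5 * s 1],
    ![s 0, s 1, 0], ![1 - s 0 - s 1, s 0, 5 * s 1]] j := by
  funext i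
  fin_cases j <;> fin_cases i <;> simp [ψ, NN, oo, mulVec, dotProduct, Fin.sum_univ_two] <;> ring

theorem ψ_inj (j : Fin 4) : Function.Injective (ψ j) := by
  intro s t h
  rw [ψ_eq, ψ_eq] at h
  have a0 := congrFun h 0
  have a1 := congrFun h 1
  have a2 := congrFun h 2
  funext i
  fin_cases j <;> fin_cases i <;> simp at a0 a1 a2 ⊢ <;> linarith

theorem ψ_img (j : Fin 4) : ψ j '' Z 2 = {x | fm (mm j) x = cc j} ∩ Z 3 := by
  ext x
  constructor
  · rintro ⟨s, hs, rfl⟩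
    obtain ⟨a, ha⟩ := mem_Z.1 hs 0
    obtain ⟨b, hb⟩ := mem_Z.1 hs 1
    rw [ψ_eq]
    refine ⟨?_, mem_Z3.2 ?_⟩
    · fin_cases j <;> simp [fm, mm, cc, Fin.sum_univ_three]
      ring
    · fin_cases j
      · exact ⟨-b, a, 5 * b, by simp [ha, hb]⟩
      · exact ⟨a, b, 5 * b, by simp [ha, hb]⟩
      · exact ⟨a, b, 0, by simp [ha, hb]⟩
      · exact ⟨1 - a - b, a, 5 * b, by simp [ha, hb]⟩
  · rintro ⟨h, hx⟩
    obtain ⟨a, b, c, ha, hb, hc⟩ := mem_Z3.1 hx
    have key : ∀ u v : ℤ, ψ j ![u, v] = x → x ∈ ψ j '' Z 2 := fun u v e =>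
      ⟨_, mem_Z.2 (Fin.forall_fin_two.2 ⟨⟨u, rfl⟩, v, rfl⟩), e⟩
    fin_cases j <;> simp [fm, mm, cc, Fin.sum_univ_three] at h
    · refine key b (-a) ?_
      rw [ψ_eq]; funext i; fin_cases i <;> simp [ha, hb] <;> linarith
    · refine key a b ?_
      rw [ψ_eq]; funext i; fin_cases i <;> simp [ha, hb] <;> linarith
    · refine key a b ?_
      rw [ψ_eq]; funext i; fin_cases i <;> simp [ha, hb, h]
    · refine key b (1 - a - b) ?_
      rw [ψ_eq]; funext i; fin_cases i <;> simp [ha, hb] <;> linarith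

theorem area_eq {F : Set E} (h : Face (M 1) 2 F) : ∃ a, HasArea F a ∧ HasArea (φ '' F) a := by
  obtain ⟨j, hj⟩ := span_eq h
  refine ⟨_, ⟨ψ j, ψ_inj j, hj ▸ ψ_img j, rfl⟩, (φl : E →ₗ[ℝ] E).toAffineMap.comp (ψ j),
    φl.injective.comp (ψ_inj j), ?_, ?_⟩
  · rw [as, hj, ← img (j := j) (S := {x | fm (mm j) x = cc j}) fun x hx => hx, ← ψ_img, Set.image_image]
    rfl
  · congr 2
    ext s
    exact φ.injective.mem_set_image.symm

end Pool.Agent.H.MP_97563e_nt
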