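import Mathlib

set_option autoImplicit false

namespace Pool.Agent.H.MP_97563e_nt
open Matrix

abbrev E := Fin 3 → ℝ

/-- the integer lattice in `ℝ^n` -/
def Z (n : ℕ) : AddSubgroup (Fin n → ℝ) := AddSubgroup.pi Set.univ fun _ => AddSubgroup.zmultiples 1

/-- convex hull of the nonzero integer points of the closed cone where all rows of `L` are `≥ 0` -/
def hull (L : Matrix (Fin 3) (Fin 3) ℝ) : Set E :=
  convexHull ℝ {x | x ∈ Z 3 ∧ x ≠ 0 ∧ ∀ i, 0 ≤ (L *ᵥ x) i}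

def sail (L : Matrix (Fin 3) (Fin 3) ℝ) : Set E := frontier (hull L)

/-- union of the eight sails -/
def CF (L : Matrix (Fin 3) (Fin 3) ℝ) : Set E :=
  ⋃ ε ∈ {ε : Fin 3 → ℝ | ∀ i, ε i = 1 ∨ ε i = -1}, sail (diagonal ε * L)

def Equivalent (L L' : Matrix (Fin 3) (Fin 3) ℝ) : Prop :=
  ∃ g : GL (Fin 3) ℤ, (fun x => (g.1.map (Int.cast : ℤ → ℝ)) *ᵥ x) '' CF L = CF L'

def Face (L : Matrix (Fin 3) (Fin 3) ℝ) (d : ℕ) (F : Set E) : Prop :=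
  IsExposed ℝ (closure (hull L)) F ∧ F.Nonempty ∧ Module.finrank ℝ (vectorSpan ℝ F) = d

def HasArea (F : Set E) (a : ENNReal) : Prop :=
  ∃ ψ : (Fin 2 → ℝ) →ᵃ[ℝ] E, Function.Injective ψ ∧
    ψ '' Z 2 = (affineSpan ℝ F : Set E) ∩ Z 3 ∧ a = 2 * MeasureTheory.volume (ψ ⁻¹' F)

def HasDist (F : Set E) (c : ℕ) : Prop :=
  ∃ m : Fin 3 → ℤ, (∃ z : Fin 3 → ℤ, m ⬝ᵥ z = 1) ∧
    (affineSpan ℝ F : Set E) = {x | ∑ i, (m i : ℝ) * x i = c}

noncomputable def len (e : Set E) : ℕ∞ := (e ∩ Z 3).encard - 1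

/-- integer vectors parallel to `F` -/
def lat (F : Set E) : AddSubgroup E := (vectorSpan ℝ F).toAddSubgroup ⊓ Z 3

noncomputable def ang (F e e' : Set E) : ℕ := (lat e ⊔ lat e').relIndex (lat F)

end Pool.Agent.H.MP_97563e_nt
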